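import Pool.Agent.W998.KG.Stm

/-! KG-EXI (for project KG of helper998). -/

set_option autoImplicit false

namespace Pool.Agent.W675.KG.EXI

open Pool.Agent.Results.MP_633d19_co.SmallDegree
open Pool.Agent.Results.MP_633d19_co.SmallDegree.MGraph
open Pool.Agent.W998.KG

variable {V E : Type}

/-- vertices of the cycle -/
def KK (l : ℕ) (y : ℕ → V) : Set V := {v | ∃ i < l, v = y i}

theorem closed {G : MGraph V E} {k l : ℕ} {y : ℕ → V} {f : ℕ → E} {α β : Fin k}
    {c : E → Option (Fin k)} (st : G.State l y f α β c) {a : Fin k}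
    (hno : ∀ i < l, ¬ Lv G l y c a i) :
    ∀ e u w, u ∈ G.ends e → w ∈ G.ends e → c e = some a → u ∈ KK l y → w ∈ KK l y := by
  intro e u w hu hw hc hK
  obtain ⟨i, hi, hui⟩ := hK
  by_contra hwK
  apply hno i hi
  refine ⟨e, hui ▸ hu, hc, ?_⟩
  intro j hj hyj
  have hne : u ≠ w := by
    rintro rfl
    exact hwK ⟨i, hi, hui⟩
  have hends : G.ends e = s(u, w) := (Sym2.mem_and_mem_iff hne).mp ⟨hu, hw⟩
  rw [hends, Sym2.mem_iff] at hyj
  rcases hyj with h | h
  · exact st.inj j hj i hi (h.trans hui)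
  · exact absurd (show w ∈ KK l y from ⟨j, hj, h.symm⟩) hwK

open Classical in
/-- first involution -/
noncomputable def sF (G : MGraph V E) {k : ℕ} (c : E → Option (Fin k)) (K : Set V) (a : Fin k)
    (v : V) : V := if v ∈ K then v else G.nb c a v

open Classical in
/-- second involution -/
noncomputable def tF (G : MGraph V E) {k : ℕ} (c : E → Option (Fin k)) (K : Set V) (a : Fin k)
    (v : V) : V := if v ∈ K ∧ G.nb c a v ∈ K then v else G.nb c a v

theorem sF_inv {G : MGraph V E} {k : ℕ} {c : E → Option (Fin k)} (hc : G.PP c) (K : Set V)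
    (a : Fin k) (hK : ∀ e u w, u ∈ G.ends e → w ∈ G.ends e → c e = some a → u ∈ K → w ∈ K) :
    Function.Involutive (sF G c K a) := by
  intro v
  unfold sF
  by_cases hv : v ∈ K
  · rw [if_pos hv, if_pos hv]
  · have hn : G.nb c a v ∉ K := by
      by_cases hm : G.Miss c v a
      · rw [G.nb_miss hm]; exact hv
      · obtain ⟨e, h1, h2⟩ := G.exists_of_not_miss hc hm
        intro hcon
        exact hv (hK e (G.nb c a v) v (by rw [h2]; simp) (by rw [h2]; simp) h1 hcon)
    rw [if_neg hv, if_neg hn]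
    exact G.nb_invol hc a v

theorem tF_inv {G : MGraph V E} {k : ℕ} {c : E → Option (Fin k)} (hc : G.PP c) (K : Set V)
    (a : Fin k) : Function.Involutive (tF G c K a) := by
  intro v
  unfold tF
  by_cases hv : v ∈ K ∧ G.nb c a v ∈ K
  · rw [if_pos hv, if_pos hv]
  · have hinv : G.nb c a (G.nb c a v) = v := G.nb_invol hc a v
    have hn : ¬ (G.nb c a v ∈ K ∧ G.nb c a (G.nb c a v) ∈ K) := by
      rw [hinv]
      rintro ⟨h1, h2⟩
      exact hv ⟨h2, h1⟩
    rw [if_neg hv, if_neg hn, hinv]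

theorem main : PartPAR → PartODD → PartSWP → PartEXI := by
  intro hPAR hODD hSWP
  intro V E _ _ G k l y f α β hl hodd hG hcl hex c st δ hδ i hi j hj hLi hLj
  classical
  by_contra hij
  have hl0 : 0 < l := by omega
  have hδα : α ≠ δ := by
    rintro rfl
    exact hδ 0 hl0 (st.ma 0 hl0)
  have hδβ : β ≠ δ := by
    rintro rfl
    exact hδ 0 hl0 (st.mb 0 hl0)
  obtain ⟨γ, hγ⟩ := hex c st 0 hl0
  rw [mem_ms] at hγ
  obtain ⟨hγα, hγβ, hγm⟩ := hγ
  have hγδ : γ ≠ δ := by
    rintro rfl
    exact hδ 0 hl0 hγm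
  have hγcl := closed st (hcl c st γ ⟨0, hl0, hγm⟩)
  have hK0 : ∀ n < l, y n ∈ KK l y := fun n hn => ⟨n, hn, rfl⟩
  -- involutions
  let s : Equiv.Perm V := (sF_inv st.pp (KK l y) γ hγcl).toPerm
  let t : Equiv.Perm V := (tF_inv st.pp (KK l y) δ).toPerm
  have hs_ap : ∀ v, s v = sF G c (KK l y) γ v := fun v => rfl
  have ht_ap : ∀ v, t v = tF G c (KK l y) δ v := fun v => rfl
  have hs2 : s * s = 1 := by
    ext v
    exact sF_inv st.pp (KK l y) γ hγcl v
  have ht2 : t * t = 1 := by
    ext v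
    exact tF_inv st.pp (KK l y) δ v
  have hsK : ∀ v ∈ KK l y, s v = v := by
    intro v hv
    rw [hs_ap]
    unfold sF
    rw [if_pos hv]
  -- leaving vertices
  let I : Finset ℕ := (Finset.range l).filter (fun n => Lv G l y c δ n)
  have hI : ∀ n, n ∈ I ↔ n < l ∧ Lv G l y c δ n := by
    intro n
    rw [Finset.mem_filter, Finset.mem_range]
  have hIodd := hODD hl hodd st hδ I hI
  let L : Finset V := I.image y
  have hLcard : L.card = I.card := by
    apply Finset.card_image_of_injOn
    intro a ha b hb hab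
    exact st.inj a ((hI a).mp ha).1 b ((hI b).mp hb).1 hab
  have hLs : ∀ v ∈ L, s v = v := by
    intro v hv
    obtain ⟨n, hn, rfl⟩ := Finset.mem_image.mp hv
    exact hsK _ (hK0 n ((hI n).mp hn).1)
  obtain ⟨x0, hx0, hx0u⟩ := hPAR s t hs2 ht2 L (by rw [hLcard]; exact hIodd) hLs
  obtain ⟨i0, hi0, hx0e⟩ := Finset.mem_image.mp hx0
  obtain ⟨hi0l, hi0L⟩ := (hI i0).mp hi0
  -- the orbit
  let O : Set V := {v | ∃ n : ℤ, v = ((s * t) ^ n) x0}
  have hx0O : x0 ∈ O := ⟨0, by simp⟩
  have hsx0 : s x0 = x0 := hLs x0 hx0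
  have hOs : ∀ v ∈ O, s v ∈ O := by
    rintro v ⟨n, hn⟩
    refine ⟨-n, ?_⟩
    rw [hn]
    exact dih_s s t hs2 ht2 x0 hsx0 n
  have hOt : ∀ v ∈ O, t v ∈ O := by
    rintro v ⟨n, hn⟩
    refine ⟨-n - 1, ?_⟩
    rw [hn]
    exact dih_t s t hs2 ht2 x0 hsx0 n
  -- the δ-neighbour of a leaving vertex is outside
  have hout : ∀ n, n < l → Lv G l y c δ n → G.nb c δ (y n) ∉ KK l y := by
    rintro n hn ⟨e, he1, he2, he3⟩ hcon
    obtain ⟨m, hm, hmy⟩ := hcon
    obtain ⟨w, hw⟩ := Sym2.mem_iff_exists.mp he1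
    have hnbw : G.nb c δ (y n) = w := G.nb_eq st.pp he2 hw
    have hmn : m = n := he3 m hm (by rw [hw, ← hmy, hnbw]; simp)
    apply G.loopless e
    rw [hw, ← hnbw, hmy, hmn]
    simp
  have hin : ∀ n, n < l → ¬ Lv G l y c δ n → G.nb c δ (y n) ∈ KK l y := by
    intro n hn hnot
    by_contra hcon
    apply hnot
    obtain ⟨e, h1, h2⟩ := G.exists_of_not_miss st.pp (hδ n hn)
    refine ⟨e, by rw [h2]; simp, h1, ?_⟩
    intro m hm hm2
    rw [h2, Sym2.mem_iff] at hm2
    rcases hm2 with h | h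
    · exact st.inj m hm n hn h
    · exact absurd (show G.nb c δ (y n) ∈ KK l y from ⟨m, hm, h.symm⟩) hcon
  have hOK : ∀ v ∈ O, v ∈ KK l y → v = x0 := by
    intro v hvO hvK
    obtain ⟨n, hn, hvn⟩ := hvK
    by_cases hLn : Lv G l y c δ n
    · apply hx0u v _ hvO
      rw [hvn]
      exact Finset.mem_image_of_mem y ((hI n).mpr ⟨hn, hLn⟩)
    · have htv : t v = v := by
        rw [ht_ap]
        unfold tF
        rw [if_pos]
        rw [hvn]
        exact ⟨hK0 n hn, hin n hn hLn⟩
      have hsv : s v = v := hsK v ⟨n, hn, hvn⟩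
      have hstv : (s * t) v = v := by
        rw [Equiv.Perm.mul_apply, htv, hsv]
      obtain ⟨m, hm⟩ := hvO
      have h1 : ((s * t) ^ (-m)) v = v := by
        have : ∀ z : ℤ, ((s * t) ^ z) v = v := by
          intro z
          exact Equiv.Perm.zpow_apply_eq_self_of_apply_eq_self hstv z
        exact this _
      have h2 : ((s * t) ^ (-m)) v = x0 := by
        rw [hm, ← Equiv.Perm.mul_apply, ← zpow_add]
        simp
      rw [← h1, h2]
  -- the colour η
  obtain ⟨η, hη⟩ := hex c st i0 hi0l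
  rw [mem_ms] at hη
  obtain ⟨hηα, hηβ, hηm⟩ := hη
  have hηδ : η ≠ δ := by
    rintro rfl
    exact hδ i0 hi0l hηm
  have hηcl := closed st (hcl c st η ⟨i0, hi0l, hηm⟩)
  obtain ⟨c1, a1, a2, a3, a4, a5, a6, a7⟩ := hSWP G st.pp γ η (KK l y) (by
    intro e u w hu hw hcol huK
    rcases hcol with h | h
    · exact hγcl e u w hu hw h huK
    · exact hηcl e u w hu hw h huK)
  have st1 : G.State l y f α β c1 := by
    refine ⟨a1, st.inj, st.ed, fun e => by rw [a2 e, st.none_iff], ?_, ?_, st.ne⟩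
    · intro n hn
      have := a4 (y n) (hK0 n hn) α (st.ma n hn)
      rwa [Equiv.swap_apply_of_ne_of_ne hγα.symm hηα.symm] at this
    · intro n hn
      have := a4 (y n) (hK0 n hn) β (st.mb n hn)
      rwa [Equiv.swap_apply_of_ne_of_ne hγβ.symm hηβ.symm] at this
  have hm1 : G.Miss c1 x0 γ := by
    have := a4 (y i0) (hK0 i0 hi0l) η hηm
    rw [Equiv.swap_apply_right] at this
    rw [← hx0e]
    exact this
  have hx0K : x0 ∈ KK l y := ⟨i0, hi0l, hx0e.symm⟩
  have hδ1 : ∀ e, c1 e = some δ ↔ c e = some δ := fun e => a3 e δ hγδ.symm hηδ.symm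
  -- closedness of the orbit
  have hOcl : ∀ e u w, u ∈ G.ends e → w ∈ G.ends e → (c1 e = some γ ∨ c1 e = some δ) → u ∈ O →
      w ∈ O := by
    intro e u w hu hw hcol huO
    by_cases huw : w = u
    · rw [huw]; exact huO
    have hends : G.ends e = s(u, w) := (Sym2.mem_and_mem_iff (Ne.symm huw)).mp ⟨hu, hw⟩
    rcases hcol with hcol | hcol
    · by_cases huK : u ∈ KK l y
      · exfalso
        have := hOK u huO huK
        rw [this] at hu
        exact hm1 e hu hcol
      · have hwK : w ∉ KK l y := by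
          intro hwK
          have h1 := a7 e w hw hwK
          rw [h1] at hcol
          have h2 : c e = some η := by
            rcases hce : c e with _ | x
            · rw [hce] at hcol; simp at hcol
            · rw [hce] at hcol
              simp only [Option.map_some, Option.some.injEq] at hcol
              have h9 := congrArg (Equiv.swap γ η) hcol
              rw [Equiv.swap_apply_self, Equiv.swap_apply_left] at h9
              rw [h9]
          exact huK (hηcl e w u hw hu h2 hwK)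
        have h1 : c1 e = c e := by
          apply a6
          intro v hv
          rw [hends, Sym2.mem_iff] at hv
          rcases hv with rfl | rfl
          · exact huK
          · exact hwK
        rw [h1] at hcol
        have h2 : s u = w := by
          rw [hs_ap]
          unfold sF
          rw [if_neg huK]
          exact G.nb_eq st.pp hcol hends
        rw [← h2]
        exact hOs u huO
    · rw [hδ1] at hcol
      have hnb : G.nb c δ u = w := G.nb_eq st.pp hcol hends
      have hnot : ¬ (u ∈ KK l y ∧ G.nb c δ u ∈ KK l y) := by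
        rintro ⟨h1, h2⟩
        have h3 := hOK u huO h1
        rw [h3, ← hx0e] at h2
        exact hout i0 hi0l hi0L h2
      have h2 : t u = w := by
        rw [ht_ap]
        unfold tF
        rw [if_neg hnot]
        exact hnb
      rw [← h2]
      exact hOt u huO
  obtain ⟨c2, b1, b2, b3, b4, b5, b6, b7⟩ := hSWP G a1 γ δ O hOcl
  have st2 : G.State l y f α β c2 := by
    refine ⟨b1, st.inj, st.ed, fun e => by rw [b2 e, st1.none_iff], ?_, ?_, st.ne⟩
    · intro n hn e he
      rw [Ne, b3 e α hγα.symm hδα]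
      exact st1.ma n hn e he
    · intro n hn e he
      rw [Ne, b3 e β hγβ.symm hδβ]
      exact st1.mb n hn e he
  have hm2 : G.Miss c2 (y i0) δ := by
    have := b4 x0 hx0O γ hm1
    rw [Equiv.swap_apply_left] at this
    rw [hx0e]
    exact this
  -- the other leaving edge
  have hfin : ∀ n, n < l → Lv G l y c δ n → n = i0 := by
    intro n hn hLn
    by_contra hne
    obtain ⟨e, he1, he2, he3⟩ := hLn
    have h1 : c1 e = some δ := (hδ1 e).mpr he2
    have h2 : ∀ u ∈ G.ends e, u ∉ O := by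
      intro u hu huO
      have h3 := hOcl e u (y n) hu he1 (Or.inr h1) huO
      have h4 := hOK (y n) h3 (hK0 n hn)
      rw [← hx0e] at h4
      exact hne (st.inj n hn i0 hi0l h4)
    have h3 : c2 e = some δ := by rw [b6 e h2, h1]
    exact hcl c2 st2 δ ⟨i0, hi0l, hm2⟩ n hn ⟨e, he1, h3, he3⟩
  exact hij ((hfin i hi hLi).trans (hfin j hj hLj).symm)

end Pool.Agent.W675.KG.EXI
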